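import Pool.Agent.Y995.IsingPlus.Final

set_option autoImplicit false

namespace Pool.Agent.Results.MP_4cb49c_pr.PlusStart

open Matrix

/-- Nearest neighbours in `ℤ^d`: the `ℓ¹` distance is one. -/
def Adj {d : ℕ} (x y : Fin d → ℤ) : Prop := ∑ i, |x i - y i| = 1

instance {d : ℕ} (x y : Fin d → ℤ) : Decidable (Adj x y) :=
  inferInstanceAs (Decidable (_ = _))

/-- The box `{1,…,L}^d`. -/
noncomputable def box (d L : ℕ) : Finset (Fin d → ℤ) :=
  Finset.Icc (fun _ => 1) (fun _ => (L : ℤ))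

/-- The centred box `{-N,…,N}^d`. -/
noncomputable def cube (d N : ℕ) : Finset (Fin d → ℤ) :=
  Finset.Icc (fun _ => -(N : ℤ)) (fun _ => (N : ℤ))

/-- The number of nearest neighbours of `x` outside `Λ`. -/
noncomputable def outside {d : ℕ} (Λ : Finset (Fin d → ℤ)) (x : Fin d → ℤ) : ℕ :=
  {y : Fin d → ℤ | Adj x y ∧ y ∉ Λ}.ncard

/-- The interaction with plus boundary condition: the sum of `σ_x σ_y` over unordered nearest
neighbour pairs inside `Λ`, plus the sum of `σ_x` over pairs `x ∈ Λ`, `y ∉ Λ`, `x ∼ y`. -/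
noncomputable def interaction {d : ℕ} (Λ : Finset (Fin d → ℤ)) (σ : Λ → ℤˣ) : ℝ :=
  (∑ x : Λ, ∑ y : Λ, if Adj x.1 y.1 then ((σ x : ℤ) : ℝ) * ((σ y : ℤ) : ℝ) else 0) / 2 +
    ∑ x : Λ, (outside Λ x.1 : ℝ) * ((σ x : ℤ) : ℝ)

/-- The Ising measure on `{-1,+1}^Λ` with plus boundary condition and zero field. -/
noncomputable def ising {d : ℕ} (Λ : Finset (Fin d → ℤ)) (β : ℝ) (σ : Λ → ℤˣ) : ℝ :=
  Real.exp (β * interaction Λ σ) / ∑ τ : Λ → ℤˣ, Real.exp (β * interaction Λ τ)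

/-- The Glauber (heat-bath) transition matrix: a uniform site `x ∈ Λ` is chosen, and the spin at `x`
is resampled from the conditional law of the Ising measure given all the other spins. -/
noncomputable def glauber {d : ℕ} (Λ : Finset (Fin d → ℤ)) (β : ℝ) :
    Matrix (Λ → ℤˣ) (Λ → ℤˣ) ℝ := fun σ η =>
  (∑ x : Λ, if ∀ y, y ≠ x → η y = σ y then
      ising Λ β η / ∑ s : ℤˣ, ising Λ β (Function.update σ x s) else 0) / Λ.card

/-- Total variation distance of two mass functions. -/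
noncomputable def tv {Ω : Type*} [Fintype Ω] (μ ν : Ω → ℝ) : ℝ := (∑ ω, |μ ω - ν ω|) / 2

/-- The mixing time from the initial law `ν`. -/
noncomputable def tmix {d : ℕ} (Λ : Finset (Fin d → ℤ)) (β : ℝ) (ν : (Λ → ℤˣ) → ℝ) : ℕ :=
  sInf {t : ℕ | tv (ν ᵥ* glauber Λ β ^ t) (ising Λ β) ≤ 1 / 4}

/-- The law `δ_+`: the point mass at the all-plus configuration. -/
noncomputable def plusStart {d : ℕ} (Λ : Finset (Fin d → ℤ)) : (Λ → ℤˣ) → ℝ :=
  fun σ => if σ = (fun _ => 1) then 1 else 0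

theorem zero_mem (d N : ℕ) : (0 : Fin d → ℤ) ∈ cube d N :=
  Pool.Agent.Helper580.IsingLat.zero_mem_cube N

/-- The expected spin at the centre of `{-N,…,N}^d` with plus boundary condition. -/
noncomputable def centreMag (d N : ℕ) (β : ℝ) : ℝ :=
  ∑ σ : cube d N → ℤˣ, ising (cube d N) β σ * ((σ ⟨0, zero_mem d N⟩ : ℤ) : ℝ)

/-- The spontaneous magnetisation. -/
noncomputable def spontaneous (d : ℕ) (β : ℝ) : ℝ := ⨅ N : ℕ, centreMag d N β

/-- The critical inverse temperature of the Ising model on `ℤ^d`. -/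
noncomputable def betaC (d : ℕ) : ℝ := sInf {β : ℝ | 0 ≤ β ∧ 0 < spontaneous d β}

/-! ### the definitions agree with those of the library -/

theorem tmix_eq {d : ℕ} (Λ : Finset (Fin d → ℤ)) (β : ℝ) (ν : (Λ → ℤˣ) → ℝ) :
    tmix Λ β ν = Pool.Agent.Results.MP_4cb49c_pr.RandomStart.tmix Λ β ν := rfl

theorem box_eq (d L : ℕ) : box d L = Pool.Agent.Helper580.IsingLat.box d L := rfl

theorem betaC_eq (d : ℕ) : betaC d = Pool.Agent.Results.MP_4cb49c_pr.RandomStart.betaC d := rfl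

theorem plusStart_eq (Λ : Finset (Fin 2 → ℤ)) :
    plusStart Λ = Pool.Agent.Y995.IsingPlus.Core.plus Λ := by
  funext σ
  unfold plusStart Pool.Agent.Y995.IsingPlus.Core.plus
  by_cases h : σ = (fun _ => 1)
  · rw [if_pos h, if_pos]
    intro x
    rw [h]
  · rw [if_neg h, if_neg]
    intro h2
    exact h (funext h2)

/-- **Started from all plus, the heat-bath dynamics of the low temperature Ising model on the square
lattice does not mix in time `O(n log n)`.** For `d = 2` and every `β ≥ 13` one has `β > β_c(2)`, and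
`t_mix(δ_+) ≥ c L² (log L)² / (log log L)⁴` for all large `L`; in particular there is no constant
`C` with `t_mix(δ_+) ≤ C n log n` for all `L ≥ 2`, where `n = L²`. -/
theorem result (β : ℝ) (hβ : 13 ≤ β) :
    betaC 2 < β ∧
    (∃ c : ℝ, 0 < c ∧ ∃ L₀ : ℕ, ∀ L : ℕ, L₀ ≤ L →
      c * ((L : ℝ) ^ 2 * Real.log L ^ 2 / Real.log (Real.log L) ^ 4) ≤
        (tmix (box 2 L) β (plusStart (box 2 L)) : ℝ)) ∧
    ¬ ∃ C : ℝ, ∀ L : ℕ, 2 ≤ L →
      (tmix (box 2 L) β (plusStart (box 2 L)) : ℝ) ≤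
        C * ((L : ℝ) ^ 2 * Real.log ((L : ℝ) ^ 2)) := by
  simp only [plusStart_eq, tmix_eq, betaC_eq, box_eq]
  exact ⟨Pool.Agent.Y995.IsingPlus.Final.betaC_lt hβ, Pool.Agent.Y995.IsingPlus.Final.lower hβ,
    Pool.Agent.Y995.IsingPlus.Final.unbounded hβ⟩

end Pool.Agent.Results.MP_4cb49c_pr.PlusStart
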